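import Pool.Agent.Helper65.CS.Goals2

/-!
# MP_34c247_lc, project CS, packet CS-CND: the candidates
-/

namespace Pool.Agent.Helper51.CS

open Pool.Agent.Helper65.CS Pool.Agent.Helper51.ZP

theorem nb_lt (b : ℕ) (r : ℕ → Bool) (j : ℕ) : nb b r j < 2 ^ b := by
  unfold nb
  have key : ∀ k : ℕ, (∑ i ∈ Finset.range k, if r (j * b + i) then 2 ^ i else 0) < 2 ^ k := by
    intro k
    induction k with
    | zero => simp
    | succ k ih =>
      rw [Finset.sum_range_succ, pow_succ]
      have h : (if r (j * b + k) then 2 ^ k else 0) ≤ 2 ^ k := by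
        split
        · exact le_rfl
        · exact Nat.zero_le _
      omega
  exact key b

theorem pk_div (b : ℕ) (r : ℕ → Bool) (j : ℕ) : pk b r j / 2 ^ b = j := by
  unfold pk
  rw [Nat.mul_comm, Nat.mul_add_div (by positivity), Nat.div_eq_of_lt (nb_lt b r j), Nat.add_zero]

theorem pk_lt (b : ℕ) (r : ℕ → Bool) (j L : ℕ) (hj : j < L / 2 ^ b) : pk b r j < L := by
  have h1 := nb_lt b r j
  have h2 : (j + 1) * 2 ^ b ≤ L := by
    calc (j + 1) * 2 ^ b ≤ (L / 2 ^ b) * 2 ^ b := Nat.mul_le_mul_right _ hj
      _ ≤ L := Nat.div_mul_le_self L _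
  unfold pk
  have h3 : (j + 1) * 2 ^ b = j * 2 ^ b + 2 ^ b := by ring
  omega

theorem cnd : CndStmt := by
  intro b M n s
  have hnd : (al n s).Nodup := List.nodup_range.filter _
  have hlt : ∀ v ∈ al n s, v < n := by
    intro v hv
    unfold al at hv
    exact List.mem_range.mp (List.mem_filter.mp hv).1
  refine ⟨hnd, hlt, ?_, ?_⟩
  · intro e he
    unfold cands at he
    by_cases hb : 2 ^ b ≤ (al n s).length
    · rw [if_pos hb] at he
      obtain ⟨r, -, he⟩ := List.mem_flatMap.mp he
      obtain ⟨y, -, rfl⟩ := List.mem_map.mp he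
      have hpos : 0 < 2 ^ b := by positivity
      have hq : 1 ≤ (al n s).length / 2 ^ b := (Nat.one_le_div_iff hpos).mpr hb
      have hlen : (ex (al n s) b r y).length = (al n s).length / 2 ^ b := by
        unfold ex
        rw [List.length_map, List.length_range]
      refine ⟨?_, ?_, ?_, ?_⟩
      · unfold ex
        rw [List.map_map]
        apply List.Nodup.map_on _ List.nodup_range
        intro j hj j' hj' hjj
        have hj1 := pk_lt b (fun i => r.getD i false) j _ (List.mem_range.mp hj)
        have hj2 := pk_lt b (fun i => r.getD i false) j' _ (List.mem_range.mp hj')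
        simp only [Function.comp] at hjj
        rw [List.getD_eq_getElem _ _ hj1, List.getD_eq_getElem _ _ hj2] at hjj
        have h := (hnd.getElem_inj_iff).mp hjj
        rw [← pk_div b (fun i => r.getD i false) j, h, pk_div]
      · intro p hp
        unfold ex at hp
        obtain ⟨j, hj, rfl⟩ := List.mem_map.mp hp
        have hj1 := pk_lt b (fun i => r.getD i false) j _ (List.mem_range.mp hj)
        simp only
        rw [List.getD_eq_getElem _ _ hj1]
        exact List.getElem_mem hj1
      · rw [hlen]
        exact hq
      · rw [hlen]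
        have h1 : (al n s).length < 2 ^ b * ((al n s).length / 2 ^ b + 1) :=
          Nat.lt_mul_div_succ _ hpos
        have h2 : 2 ^ b * ((al n s).length / 2 ^ b + 1) ≤ (al n s).length / 2 ^ b * 2 ^ (b + 1) := by
          rw [pow_succ]
          nlinarith [hq, hpos]
        omega
    · rw [if_neg hb] at he
      obtain ⟨v, hv, he⟩ := List.mem_flatMap.mp he
      have hv' : v ∈ al n s := List.mem_of_mem_take hv
      have hb' : (al n s).length ≤ 2 ^ (b + 1) := by
        have : 2 ^ b ≤ 2 ^ (b + 1) := Nat.pow_le_pow_right (by norm_num) (by omega)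
        omega
      have he' : e = [(v, false)] ∨ e = [(v, true)] := by simpa using he
      rcases he' with rfl | rfl
      · refine ⟨by simp, ?_, by simp, by simpa using hb'⟩
        intro p hp
        have : p = (v, false) := by simpa using hp
        rw [this]
        exact hv'
      · refine ⟨by simp, ?_, by simp, by simpa using hb'⟩
        intro p hp
        have : p = (v, true) := by simpa using hp
        rw [this]
        exact hv'
  · intro hb hne
    obtain ⟨v, l, hvl⟩ := List.exists_cons_of_ne_nil hne
    refine ⟨v, by rw [hvl]; exact List.mem_cons_self, ?_, ?_⟩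
    · unfold cands
      rw [if_neg (by omega), hvl]
      simp
    · unfold cands
      rw [if_neg (by omega), hvl]
      simp

end Pool.Agent.Helper51.CS
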