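import Pool.Agent.Helper65.CS.Goals3

/-!
# MP_34c247_lc, project CS, packet CS-MLF: search for accepting coins
-/

namespace Pool.Agent.Helper51.CS

open Pool.Agent.Helper81.CC Pool.Agent.Helper51.ZP Pool.Agent.Helper78.DT Pool.Agent.Helper31.TMSim
open Pool.Agent.Helper83.CL Pool.Agent.Helper65.CS Computability

theorem PT_of_comp {α β : Type} [ToData α] [ToData β] {f : α → β}
    (h : PolyTimeComputable (encOf α) (encOf β) f) : PolyTime f :=
  ⟨scomp_of_polyTimeComputable h⟩

theorem val_append_false {n : ℕ} (r : Fin n → Bool) (F : DList) (k : ℕ) :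
    DList.val r (F ++ List.replicate k ([], false)) = DList.val r F := by
  induction F with
  | nil =>
    cases k with
    | zero => rfl
    | succ k =>
      simp [List.replicate_succ, DList.val]
  | cons e F ih =>
    simp only [List.cons_append, DList.val, ih]

theorem le_dsize (m s : ℕ) (F : DList) :
    s ≤ dsize (m, F ++ List.replicate s ([], false)) := by
  unfold dsize
  rw [List.map_append, List.sum_append, List.map_replicate, List.sum_replicate]
  simp
  omega

theorem mlf (h1 : MlvStmt) (h2 : MlpStmt) : MlfStmt := by
  intro hF c α _ A s hs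
  obtain ⟨g, hg, hg2⟩ := hF c
  have hm : PolyTime A.m := PT_of_comp A.m_poly
  have hs' : PolyTime s := PT_of_comp hs
  have hg' : PolyTime g := PT_of_comp hg
  have hd : PolyTime fun x => mdl A x := h2 α A
  refine ⟨fun x => g (A.m x, mdl A x ++ List.replicate (s x) ([], false)), ?_, ?_⟩
  · apply PolyTime.computable
    refine PolyTime.comp hg' (PolyTime.pair hm (PolyTime.append hd (PolyTime.replicate hs' ?_)))
    exact PolyTime.const _
  · intro x hx
    have hval : ∀ r : Fin (A.m x) → Bool,
        DList.val r (mdl A x ++ List.replicate (s x) ([], false)) = true ↔ A.Accepts x r := by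
      intro r
      rw [val_append_false]
      exact h1 α A x r
    have hcard : Nat.card {r : Fin (A.m x) → Bool //
        DList.val r (mdl A x ++ List.replicate (s x) ([], false)) = true} = A.acc x := by
      unfold Machine.acc
      exact Nat.card_congr (Equiv.subtypeEquivRight hval)
    obtain ⟨r, hr, hr2⟩ := hg2 (A.m x) (mdl A x ++ List.replicate (s x) ([], false)) (by
      rw [hcard]
      refine hx.trans (Nat.mul_le_mul_right _ (Nat.pow_le_pow_left ?_ _))
      have := Nat.log_mono_right (b := 2) (le_dsize (A.m x) (s x) (mdl A x))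
      omega)
    exact ⟨r, (hval r).mp hr, hr2⟩

end Pool.Agent.Helper51.CS
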